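import Mathlib
import Pool.Agent.H6.Thr

set_option autoImplicit false

namespace Pool.Agent.Results.MP_9c4245_co.Unbounded

open Classical in
/-- `G` is `k`-threshold: thresholds `θ 0 < ... < θ (k-1)` and real ranks such that distinct
`v, w` are adjacent iff the number of `i` with `θ i ≤ r v + r w` is odd. -/
def KThr {V : Type} (G : SimpleGraph V) (k : ℕ) : Prop :=
  ∃ θ : Fin k → ℝ, StrictMono θ ∧ ∃ r : V → ℝ, ∀ v w, v ≠ w →
    (G.Adj v w ↔ Odd (Finset.univ.filter fun i => θ i ≤ r v + r w).card)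

/-- The edge set of `G` is the union of the edge sets of `k` threshold (`1`-threshold) graphs
on the same vertex set. -/
def Cover {V : Type} (G : SimpleGraph V) (k : ℕ) : Prop :=
  ∃ H : Fin k → SimpleGraph V, (∀ i, KThr (H i) 1) ∧ G.edgeSet = ⋃ i, (H i).edgeSet

theorem result (C : ℕ) : ∃ (V : Type) (_ : Finite V) (G : SimpleGraph V),
    IsLeast {k | Cover Gᶜ k} 2 ∧ ∀ k ≤ C, ¬ KThr G k := by
  obtain ⟨V, i, H, h1, -, h3⟩ := Pool.Agent.H6.Thr.main C
  refine ⟨V, i, Hᶜ, ?_, h3⟩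
  rw [compl_compl]
  exact h1

end Pool.Agent.Results.MP_9c4245_co.Unbounded
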